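import Pool.Agent.Helper54.FP.Inst

/-!
# Linear independence of the powers of an Artin-Schreier root
-/

set_option autoImplicit false
open Polynomial

namespace Pool.Agent.Helper54.FP

/-- fixed points of Frobenius are integers -/
private theorem indep_fix {p : ℕ} [Fact p.Prime] {Ω : Type} [Field Ω] [CharP Ω p] (x : Ω)
    (hx : x ^ p = x) : ∃ n : ℤ, (n : Ω) = x :=
  (mem_bot_iff_intCast p Ω).1 ((Subfield.mem_bot_iff_pow_eq_self Ω p).2 hx)

/-- `X^p - X - g` splits over a field containing a root -/
private theorem indep_splits {p : ℕ} [Fact p.Prime] {Ω : Type} [Field Ω] [CharP Ω p] (u : Ω) :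
    (X ^ p - X - C (u ^ p - u) : Polynomial Ω).Splits := by
  have h1 : (X ^ p - X : Polynomial Ω).Splits := by
    have := (Subfield.splits_bot Ω p).map (Subfield.subtype (⊥ : Subfield Ω))
    simpa using this
  have h2 := h1.comp_X_sub_C u
  have h3 : (X ^ p - X : Polynomial Ω).comp (X - C u) = X ^ p - X - C (u ^ p - u) := by
    rw [sub_comp, pow_comp, X_comp, sub_pow_char, map_sub, map_pow]
    ring
  rwa [h3] at h2

private theorem indep_sum {Ω : Type} [Field Ω] (u : Ω) (s : Multiset Ω)
    (h : ∀ r ∈ s, ∃ n : ℤ, r = u + n) : ∃ n : ℤ, s.sum = (s.card : Ω) * u + n := by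
  induction s using Multiset.induction_on with
  | empty => exact ⟨0, by simp⟩
  | cons a s ih =>
    obtain ⟨n, hn⟩ := ih fun r hr => h r (Multiset.mem_cons_of_mem hr)
    obtain ⟨m, hm⟩ := h a (Multiset.mem_cons_self a s)
    refine ⟨m + n, ?_⟩
    rw [Multiset.sum_cons, Multiset.card_cons, hn, hm]
    push_cast
    ring

/-- no solution over Laurent series -/
private theorem indep_laurent {p : ℕ} [Fact p.Prime] {F : Type} [Field F] [CharP F p]
    (g : Polynomial F) (hpos : 0 < g.natDegree) (hdvd : ¬ p ∣ g.natDegree)
    (w : LaurentSeries F) (hw : w ^ p - w = px F g) : False := by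
  have hp : 1 < p := (Fact.out : p.Prime).one_lt
  have hg : g.coeff g.natDegree ≠ 0 := by
    rw [coeff_natDegree, Ne, leadingCoeff_eq_zero]
    rintro rfl
    simp at hpos
  have hc : ∀ m : ℕ, (w ^ p - w).coeff (-(m : ℤ)) = g.coeff m := by
    intro m
    rw [hw, px_coeff, if_pos (by omega)]
    simp
  have hpo : (w ^ p).order = p * w.order := by
    rw [HahnSeries.order_pow, nsmul_eq_mul]
  rcases le_or_gt 0 w.order with h0 | h0
  · apply hg
    rw [← hc, HahnSeries.coeff_sub]
    rw [HahnSeries.coeff_eq_zero_of_lt_order, HahnSeries.coeff_eq_zero_of_lt_order, sub_zero]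
    · omega
    · rw [hpo]
      have : 0 ≤ (p : ℤ) * w.order := by positivity
      omega
  · obtain ⟨n, hn⟩ : ∃ n : ℕ, w.order = -(n : ℤ) := ⟨(-w.order).toNat, by omega⟩
    have hn0 : 0 < n := by omega
    have hwne : w ≠ 0 := by
      rintro rfl
      simp at h0
    have h1 : g.coeff (p * n) ≠ 0 := by
      rw [← hc, HahnSeries.coeff_sub, HahnSeries.coeff_eq_zero_of_lt_order (x := w), sub_zero]
      · have : (-((p * n : ℕ) : ℤ)) = (w ^ p).order := by
          rw [hpo, hn]
          push_cast
          ring
        rw [this]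
        exact HahnSeries.coeff_order_eq_zero.not.2 (pow_ne_zero p hwne)
      · rw [hn]
        have : n < p * n := by nlinarith
        push_cast
        have h2 : (n : ℤ) < p * n := by exact_mod_cast this
        omega
    have h2 : p * n ≤ g.natDegree := le_natDegree_of_ne_zero h1
    have h3 : g.natDegree ≤ p * n := by
      by_contra hlt
      push Not at hlt
      apply hg
      rw [← hc, HahnSeries.coeff_sub, HahnSeries.coeff_eq_zero_of_lt_order,
        HahnSeries.coeff_eq_zero_of_lt_order, sub_zero]
      · rw [hn]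
        have : n ≤ p * n := by nlinarith
        omega
      · rw [hpo, hn]
        have : ((p * n : ℕ) : ℤ) < g.natDegree := by exact_mod_cast hlt
        push_cast at this
        linarith
    exact hdvd ⟨n, le_antisymm h3 h2⟩

theorem indep_as {p : ℕ} [Fact p.Prime] {E F Ω : Type} [CommRing E] [IsDomain E] [Field F]
    [CharP F p] [Field Ω]
    (i : E →+* Ω) (hi : Function.Injective i) (h : E →+* LaurentSeries F)
    (hh : Function.Injective h) (gE : E) (g : Polynomial F) (hg : h gE = px F g)
    (hpos : 0 < g.natDegree) (hdvd : ¬ p ∣ g.natDegree) (u : Ω) (hu : u ^ p - u = i gE) :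
    ∀ P : Polynomial E, P.natDegree < p → P.eval₂ i u = 0 → P = 0 := by
  intro P hP hPu
  by_contra hP0
  haveI hFL : CharP (LaurentSeries F) p :=
    charP_of_injective_ringHom (f := (HahnSeries.C : F →+* LaurentSeries F))
      (RingHom.injective _) p
  haveI hE : CharP E p := RingHom.charP h hh p
  haveI hΩ : CharP Ω p := charP_of_injective_ringHom hi p
  set K := FractionRing E with hK
  let iK : K →+* Ω := IsFractionRing.lift hi
  let hL : K →+* LaurentSeries F := IsFractionRing.lift hh
  have hiK : ∀ x : E, iK (algebraMap E K x) = i x := fun x => IsFractionRing.lift_algebraMap hi x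
  have hhL : ∀ x : E, hL (algebraMap E K x) = h x := fun x => IsFractionRing.lift_algebraMap hh x
  letI : Algebra K Ω := iK.toAlgebra
  have halg : ∀ x : K, algebraMap K Ω x = iK x := fun _ => rfl
  set P' : Polynomial K := P.map (algebraMap E K) with hP'
  have hP'0 : P' ≠ 0 := by
    rw [hP', Ne, Polynomial.map_eq_zero_iff (IsFractionRing.injective E K)]
    exact hP0
  have hP'u : Polynomial.aeval u P' = 0 := by
    have h1 : (algebraMap K Ω).comp (algebraMap E K) = i := RingHom.ext fun x => by
      rw [RingHom.comp_apply, halg, hiK]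
    rw [hP', Polynomial.aeval_def, Polynomial.eval₂_map, h1]
    exact hPu
  have hint : IsIntegral K u := by
    have : IsAlgebraic K u := ⟨P', hP'0, hP'u⟩
    exact this.isIntegral
  set m := minpoly K u with hm
  have hmon : m.Monic := minpoly.monic hint
  have hdeg : m.natDegree < p := by
    refine lt_of_le_of_lt (natDegree_le_of_dvd (minpoly.dvd K u hP'u) hP'0) ?_
    exact lt_of_le_of_lt natDegree_map_le hP
  have hdpos : 0 < m.natDegree := minpoly.natDegree_pos hint
  have hdvdf : m ∣ X ^ p - X - C (algebraMap E K gE) := by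
    apply minpoly.dvd
    simp [halg, hiK, hu]
  have hspl : (m.map iK).Splits := by
    refine (indep_splits (p := p) u).of_dvd ?_ ?_
    · intro h0
      have h1 := congrArg natDegree h0
      have h2 : (X ^ p - X - C (u ^ p - u) : Polynomial Ω).natDegree = p := by
        rw [natDegree_sub_C]
        exact FiniteField.X_pow_card_sub_X_natDegree_eq Ω (Fact.out : p.Prime).one_lt
      rw [h2, natDegree_zero] at h1
      exact (Fact.out : p.Prime).ne_zero h1
    · have := Polynomial.map_dvd iK hdvdf
      simpa [hiK, hu] using this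
  have hroots : ∀ r ∈ (m.map iK).roots, ∃ n : ℤ, r = u + n := by
    intro r hr
    have hr0 : (m.map iK).eval r = 0 := (mem_roots'.1 hr).2
    have h1 : (X ^ p - X - C (u ^ p - u) : Polynomial Ω).eval r = 0 := by
      have := Polynomial.map_dvd iK hdvdf
      have h2 := eval_dvd (x := r) this
      rw [hr0, zero_dvd_iff] at h2
      simpa [hiK, hu] using h2
    simp only [eval_sub, eval_pow, eval_X, eval_C] at h1
    obtain ⟨n, hn⟩ := indep_fix (p := p) (r - u) (by
      rw [sub_pow_char]
      linear_combination h1)
    exact ⟨n, by rw [hn]; ring⟩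
  obtain ⟨n, hn⟩ := indep_sum u _ hroots
  have hcard : (m.map iK).roots.card = m.natDegree := by
    rw [← hspl.natDegree_eq_card_roots, natDegree_map]
  have hnext : (m.map iK).nextCoeff = -(m.map iK).roots.sum :=
    hspl.nextCoeff_eq_neg_sum_roots_of_monic (hmon.map iK)
  rw [nextCoeff_map iK.injective] at hnext
  have hd0 : (m.natDegree : K) ≠ 0 := by
    have : CharP K p := charP_of_injective_ringHom (IsFractionRing.injective E K) p
    rw [Ne, CharP.cast_eq_zero_iff K p]
    exact Nat.not_dvd_of_pos_of_lt hdpos hdeg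
  set κ : K := (-m.nextCoeff - n) / m.natDegree with hκ
  have hκu : iK κ = u := by
    have h1 : iK (m.natDegree : K) ≠ 0 := by
      rw [Ne, map_eq_zero]
      exact hd0
    rw [hκ, map_div₀, div_eq_iff h1, map_sub, map_neg, hnext, hn, hcard, map_intCast, map_natCast]
    ring
  have hκ2 : κ ^ p - κ = algebraMap E K gE := by
    apply iK.injective
    rw [map_sub, map_pow, hκu, hiK, hu]
  apply indep_laurent g hpos hdvd (hL κ)
  rw [← map_pow, ← map_sub, hκ2, hhL, hg]

end Pool.Agent.Helper54.FP
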