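import Pool.Agent.Helper54.FP.Inst

/-!
# Factorization of matrices over `k[z,1/z]⟦t⟧`
-/

set_option autoImplicit false
open Finset

namespace Pool.Agent.Helper54.FP

section
variable {k : Type} [Field k]

/-- splitting of a Laurent polynomial into the part with non-negative powers of `z` and a
polynomial in `1/z` -/
private theorem factor_split (f : LaurentPolynomial k) :
    ∃ cb : Polynomial k × Polynomial k,
      f = cb.1.toLaurent + LaurentPolynomial.invert cb.2.toLaurent := by
  induction f using LaurentPolynomial.induction_on' with
  | add f g hf hg =>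
    obtain ⟨⟨c, b⟩, h1⟩ := hf
    obtain ⟨⟨c', b'⟩, h2⟩ := hg
    refine ⟨(c + c', b + b'), ?_⟩
    dsimp only at h1 h2 ⊢
    rw [h1, h2, map_add, map_add, map_add]
    ring
  | C_mul_T n a =>
    rcases le_or_gt 0 n with hn | hn
    · obtain ⟨m, rfl⟩ := Int.eq_ofNat_of_zero_le hn
      exact ⟨(Polynomial.C a * Polynomial.X ^ m, 0), by simp⟩
    · obtain ⟨m, rfl⟩ : ∃ m : ℕ, n = -(m : ℤ) := ⟨(-n).toNat, by omega⟩
      exact ⟨(0, Polynomial.C a * Polynomial.X ^ m), by simp⟩

private noncomputable def factor_sp (f : LaurentPolynomial k) : Polynomial k × Polynomial k :=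
  (factor_split f).choose

private theorem factor_sp_spec (f : LaurentPolynomial k) :
    f = (factor_sp f).1.toLaurent + LaurentPolynomial.invert (factor_sp f).2.toLaurent :=
  (factor_split f).choose_spec

/-- `w ↦ 1/z` -/
private noncomputable def factor_j : Polynomial k →+* LaurentPolynomial k :=
  (LaurentPolynomial.invert (R := k)).toRingEquiv.toRingHom.comp Polynomial.toLaurent

private theorem factor_j_apply (f : Polynomial k) :
    factor_j f = LaurentPolynomial.invert f.toLaurent := rfl

variable {G : Type} [Fintype G] [DecidableEq G]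

/-- the coefficients of the second factor -/
private noncomputable def factor_B (M : ℕ → Matrix G G (LaurentPolynomial k)) :
    ℕ → Matrix G G (Polynomial k)
  | 0 => 1
  | n + 1 => fun i j => - (factor_sp ((∑ a : Fin (n + 1),
      ((factor_B M a.1).map factor_j) * M (n - a.1)) i j)).2
  decreasing_by exact a.2

private noncomputable def factor_D (M : ℕ → Matrix G G (LaurentPolynomial k)) (n : ℕ) :
    Matrix G G (LaurentPolynomial k) :=
  ∑ a ∈ range (n + 1), ((factor_B M a).map factor_j) * M (n - a)

private theorem factor_B_succ (M : ℕ → Matrix G G (LaurentPolynomial k)) (n : ℕ) (i j : G) :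
    factor_B M (n + 1) i j = - (factor_sp (factor_D M n i j)).2 := by
  rw [factor_B, factor_D, Finset.sum_range]

private theorem factor_unit (A : Matrix G G (Pk k))
    (h : ∀ i j, PowerSeries.constantCoeff (A i j) = (1 : Matrix G G (Polynomial k)) i j) :
    IsUnit A := by
  rw [Matrix.isUnit_iff_isUnit_det, PowerSeries.isUnit_iff_constantCoeff, RingHom.map_det]
  have : (PowerSeries.constantCoeff (R := Polynomial k)).mapMatrix A = 1 := by
    ext1 i j
    exact h i j
  rw [this, Matrix.det_one]
  exact isUnit_one

theorem factorization {G k : Type} [Fintype G] [DecidableEq G] [Field k]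
    (M : Matrix G G (A0 k)) :
    ∃ A1 A2 : Matrix G G (Pk k), IsUnit A1 ∧ IsUnit A2 ∧
      A2.map (a2 k) * (1 + (PowerSeries.X : A0 k) • M) = A1.map (a1 k) := by
  classical
  set N : ℕ → Matrix G G (LaurentPolynomial k) := fun n i j => PowerSeries.coeff n (M i j) with hN
  refine ⟨fun i j => PowerSeries.mk fun n => Nat.casesOn n ((1 : Matrix G G (Polynomial k)) i j)
      (fun m => (factor_sp (factor_D N m i j)).1),
    fun i j => PowerSeries.mk fun n => factor_B N n i j, ?_, ?_, ?_⟩
  · apply factor_unit
    intro i j
    rw [← PowerSeries.coeff_zero_eq_constantCoeff_apply, PowerSeries.coeff_mk]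
    rfl
  · apply factor_unit
    intro i j
    rw [← PowerSeries.coeff_zero_eq_constantCoeff_apply, PowerSeries.coeff_mk, factor_B]
  · refine Matrix.ext fun i j => PowerSeries.ext fun n => ?_
    rw [Matrix.mul_add, Matrix.mul_one, Matrix.mul_smul]
    simp only [Matrix.add_apply, Matrix.smul_apply, Matrix.map_apply, smul_eq_mul, map_add]
    rcases n with _ | n
    · simp only [a1, a2, PowerSeries.coeff_map, PowerSeries.coeff_mk, PowerSeries.coeff_zero_X_mul,
        add_zero, factor_B]
      by_cases hij : i = j
      · subst hij
        simp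
      · simp [Matrix.one_apply_ne hij]
    · rw [PowerSeries.coeff_succ_X_mul]
      simp only [a1, a2, PowerSeries.coeff_map, PowerSeries.coeff_mk]
      rw [factor_B_succ]
      have hD : PowerSeries.coeff n (((Matrix.map (fun i j => PowerSeries.mk fun n =>
          factor_B N n i j) (PowerSeries.map ((LaurentPolynomial.invert (R :=
            k)).toRingEquiv.toRingHom.comp Polynomial.toLaurent)) : Matrix G G (A0 k)) * M) i j) =
          factor_D N n i j := by
        rw [Matrix.mul_apply, map_sum, factor_D, Matrix.sum_apply]
        simp only [Matrix.mul_apply]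
        rw [Finset.sum_comm]
        refine Finset.sum_congr rfl fun l _ => ?_
        rw [PowerSeries.coeff_mul, Finset.Nat.sum_antidiagonal_eq_sum_range_succ_mk]
        refine Finset.sum_congr rfl fun a _ => ?_
        simp only [Matrix.map_apply, PowerSeries.coeff_map, PowerSeries.coeff_mk, hN]
        rfl
      rw [hD, map_neg]
      have := factor_sp_spec (factor_D N n i j)
      rw [add_comm (-_) _]
      change factor_D N n i j + -(LaurentPolynomial.invert
        (factor_sp (factor_D N n i j)).2.toLaurent) = _
      nth_rewrite 1 [this]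
      rw [add_neg_cancel_right]
end

end Pool.Agent.Helper54.FP
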